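import Pool.Agent.SplNest.FinN
import Pool.Agent.SplLog.Final

set_option autoImplicit false

/-!
# The end of the proof

From the bound of the number of touches in a system with the keys `1, ..., n` (`hAB`) to the
competitive ratio: reduction to the touched keys, interleave bound, logarithms.
-/

namespace Pool.Agent.SplPly

open BinaryTree Pool.Agent.MP_c42954_lc.Scan Pool.Agent.SplLog Pool.Agent.SplAll

/-- The kills and the alternations of a system with the keys `1, ..., n`, `n ≤ 2 ^ L`. -/
def AB (C : ℕ) : Prop := ∀ (L n : ℕ) (S : Sys), 1 ≤ L → n ≤ 2 ^ L →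
  S.K = Finset.Icc 1 n → S.top = n + 1 → S.KR ≤ S.NR + S.CR + S.CL + S.m →
  S.mir.KR ≤ S.mir.NR + S.mir.CR + S.mir.CL + S.m →
  S.NR + S.mir.NR + S.CR + S.CL ≤ C * (Nat.log 2 L + 2) ^ 7 *
    (n + S.m + SW 2 L (fun _ i => 2 * i) ((List.range S.m).map (fun t => S.X t - 1)))

theorem rk_mono (U : Finset ℕ) : Monotone (rk U) := by
  intro a b hab
  apply Finset.card_le_card
  intro v hv
  rw [Finset.mem_filter] at hv ⊢
  exact ⟨hv.1, by omega⟩

theorem un_sub {X : List ℕ} {T : BinaryTree ℕ} (hb : IsBST T) (hX : ∀ x ∈ X, x ∈ inorder T) :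
    Un X T ⊆ (inorder T).toFinset := by
  intro v hv
  obtain ⟨x, hx, h⟩ := UCARD_mem.1 hv
  rw [List.mem_toFinset]
  rcases h with rfl | h
  · exact hX v hx
  · exact onP_mem ((mem_ancs hb (hX x hx)).1 h).1

theorem size_le (u : ℕ) : Nat.size u ≤ u := by
  rw [Nat.size_le]
  exact Nat.lt_two_pow_self

/-- The bound in natural numbers. -/
theorem main_nat {C : ℕ} (hAB : AB C) {T : BinaryTree ℕ} {X : List ℕ} {c : ℕ} (hb : IsBST T)
    (hX : ∀ x ∈ X, x ∈ inorder T) (hex : Exec T X c) :
    splayCost X T ≤ (12 * C + 2) * ML (inorder T).length ^ 7 * c := by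
  rcases X with _ | ⟨x0, X0⟩
  · simp [splayCost]
  set X := x0 :: X0 with hXdef
  have hx0 : x0 ∈ X := List.mem_cons_self
  set n := (inorder T).length with hnd
  set u := (Un X T).card with hu
  have hxU : ∀ x ∈ X, x ∈ Un X T := fun x hx => UCARD_mem.2 ⟨x, hx, Or.inl rfl⟩
  have hu1 : 1 ≤ u := Finset.card_pos.2 ⟨x0, hxU x0 hx0⟩
  have hun : u ≤ n := (Finset.card_le_card (un_sub hb hX)).trans (List.toFinset_card_le _)
  have huc : u ≤ c := ucard hex hb hX
  have hXc : X.length ≤ c := length_le_exec hex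
  obtain ⟨T', hb', hX', hT', hlen', hcost⟩ := RED hb hX
  -- shift by one
  set f : ℕ → ℕ := fun v => v + 1 with hf
  have hmono : ∀ x ∈ inorder T', Mono f x (inorder T') := fun x _ a _ =>
    ⟨fun h => by simp only [hf]; omega, fun h => by simp only [hf]; omega⟩
  set T'' := mapT f T' with hT''
  set X' := X.map (rk (Un X T)) with hX'def
  set X'' := X'.map f with hX''
  have hin : inorder T'' = (inorder T').map f := mapT_inorder f T'
  have hb'' : IsBST T'' := by
    unfold IsBST
    rw [hin, List.pairwise_map]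
    exact List.Pairwise.imp (fun {a b} h => by simp only [hf]; omega) hb'
  have hmX : ∀ y ∈ X'', y ∈ inorder T'' := by
    intro y hy
    rw [hX'', List.mem_map] at hy
    obtain ⟨x, hx, rfl⟩ := hy
    rw [hin]
    exact List.mem_map_of_mem (hX' x hx)
  have hcost' : splayCost X'' T'' = splayCost X T := by
    rw [hX'', hT'', RED_cost hmono X' T' hb' rfl hX', hcost]
  have hlX : X''.length = X.length := by
    rw [hX'', List.length_map, hX'def, List.length_map]
  have hB : Bd 0 (u + 1) T'' := by
    intro v hv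
    rw [hin, List.mem_map] at hv
    obtain ⟨w, hw, rfl⟩ := hv
    have := hT' w hw
    simp only [hf]
    omega
  have hmX' : ∀ t, t < X''.length → (fun t => X''.getD t 0) t ∈ inorder T'' := by
    intro t ht
    simp only
    rw [List.getD_eq_getElem _ _ ht]
    exact hmX _ (List.getElem_mem ht)
  have hc1 := run_cost (X := fun t => X''.getD t 0) (m := X''.length) hb'' hmX' hB
  have hc2 := run_kept (X := fun t => X''.getD t 0) (m := X''.length) hb'' hmX' hB
  have hc3 := cost_eq X'' T''
  rw [hcost'] at hc3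
  set S := sysOf T'' (fun t => X''.getD t 0) X''.length (u + 1) hb'' hmX' hB with hS
  have hK : S.K = Finset.Icc 1 u := by
    show (inorder T'').toFinset = _
    apply Finset.eq_of_subset_of_card_le
    · intro v hv
      rw [List.mem_toFinset] at hv
      have := hB v hv
      rw [Finset.mem_Icc]
      omega
    · rw [Nat.card_Icc, List.toFinset_card_of_nodup, hin, List.length_map, hlen']
      · omega
      · exact List.Pairwise.imp (fun h => Nat.ne_of_lt h) hb''
  set L := Nat.size u with hL
  have hL1 : 1 ≤ L := Nat.size_pos.2 (by omega)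
  have huL : u ≤ 2 ^ L := (Nat.lt_size_self u).le
  have e1 : X''.length = S.m := rfl
  have hk2 : S.mir.KR ≤ S.mir.NR + S.mir.CR + S.mir.CL + S.m := by
    rw [Sys.mir_CR, Sys.mir_CL]
    have h := hc2.2
    rw [e1] at h
    omega
  have h1 := hAB L u S hL1 huL hK rfl hc2.1 hk2
  have hlist : (List.range S.m).map (fun t => S.X t - 1) = X' := by
    have e0 : S.m = X'.length := by
      show X''.length = _
      rw [hX'', List.length_map]
    apply List.ext_getElem
    · simp [e0]
    · intro i h2 h3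
      simp only [List.getElem_map, List.getElem_range]
      show X''.getD i 0 - 1 = _
      have h4 : i < X''.length := by
        rw [hX'', List.length_map]
        exact h3
      rw [List.getD_eq_getElem _ _ h4]
      simp only [hX'', List.getElem_map, hf]
      rfl
  rw [hlist] at h1
  have hlb : SW 2 L (fun _ i => 2 * i) X' ≤ 2 * c + u + L :=
    LB (l := L) (m0 := u) (rk_mono (Un X T)) (le_refl 2) hex hb
      (fun x hx => ⟨hX x hx, RED_rk_card (hxU x hx)⟩) _
  have hm : S.m = X.length := hlX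
  have hLu : L ≤ u := size_le u
  have h2 : u + S.m + SW 2 L (fun _ i => 2 * i) X' ≤ 6 * c := by
    rw [hm]
    omega
  have hM : Nat.log 2 L + 2 ≤ ML n := by
    unfold ML
    have h3 : L ≤ Nat.size (n + 1) := by
      rw [hL]
      exact Nat.size_le_size (by omega)
    have h4 : Nat.log 2 L ≤ Nat.log 2 (Nat.size (n + 1)) := Nat.log_mono_right h3
    omega
  have h3 : S.NR + S.mir.NR + S.CR + S.CL ≤ C * ML n ^ 7 * (6 * c) :=
    (h1.trans (Nat.mul_le_mul_left _ h2)).trans
      (Nat.mul_le_mul_right _ (Nat.mul_le_mul_left _ (Nat.pow_le_pow_left hM 7)))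
  have hM1 : 1 ≤ ML n ^ 7 := Nat.one_le_pow _ _ (by unfold ML; omega)
  have h4 : splayCost X T ≤ 2 * S.m + 2 * (S.NR + S.mir.NR + S.CR + S.CL) := by
    rw [hc3]
    omega
  have h5 : S.m ≤ ML n ^ 7 * c := by
    rw [hm]
    exact hXc.trans (Nat.le_mul_of_pos_left c hM1)
  calc splayCost X T ≤ 2 * (ML n ^ 7 * c) + 2 * (C * ML n ^ 7 * (6 * c)) := by omega
    _ = (12 * C + 2) * ML n ^ 7 * c := by ring

/-- **Splay trees are polyloglog-competitive**, from the bound of the touches. -/
theorem competitive (hAB : ∃ C : ℕ, AB C) : ∃ C : ℝ, 0 < C ∧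
    ∀ (T : BinaryTree ℕ) (X : List ℕ) (c : ℕ), IsBST T → (∀ x ∈ X, x ∈ inorder T) →
    3 ≤ (inorder T).length → Exec T X c →
    (splayCost X T : ℝ) ≤ C * Real.log (Real.log (inorder T).length) ^ 7 * c := by
  obtain ⟨C, hC⟩ := hAB
  obtain ⟨D, hD0, hD⟩ := ML_le
  refine ⟨(12 * C + 2) * D ^ 7, by positivity, ?_⟩
  intro T X c hb hX hn hex
  have h1 := main_nat hC hb hX hex
  have h2 := hD _ hn
  have h0 : 0 ≤ Real.log (Real.log (inorder T).length) := by
    by_contra hcon
    push Not at hcon
    have : (ML (inorder T).length : ℝ) < 0 := lt_of_le_of_lt h2 (mul_neg_of_pos_of_neg hD0 hcon)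
    exact absurd this (not_lt.2 (Nat.cast_nonneg _))
  have h3 : ((ML (inorder T).length : ℝ)) ^ 7 ≤ (D * Real.log (Real.log (inorder T).length)) ^ 7 :=
    pow_le_pow_left₀ (Nat.cast_nonneg _) h2 7
  calc (splayCost X T : ℝ) ≤ (((12 * C + 2) * ML (inorder T).length ^ 7 * c : ℕ) : ℝ) := by
        exact_mod_cast h1
    _ = (12 * C + 2) * (ML (inorder T).length : ℝ) ^ 7 * c := by push_cast; ring
    _ ≤ (12 * C + 2) * (D * Real.log (Real.log (inorder T).length)) ^ 7 * c := by gcongr
    _ = (12 * C + 2) * D ^ 7 * Real.log (Real.log (inorder T).length) ^ 7 * c := by ring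

end Pool.Agent.SplPly
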