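import Pool.Agent.SplLog.Final
import Pool.Agent.SplAll.Red
import Pool.Agent.SplAll.UCard
import Pool.Agent.SplPl.ThmA2
import Pool.Agent.SplPl.RunHalf
import Pool.Agent.SplLow.Mk

set_option autoImplicit false

/-!
# The end of the proof, sharp form

Reduction to the touched keys, height reduction for the execution, and the sharp form of
Theorem A.
-/

namespace Pool.Agent.SplPly

open BinaryTree Pool.Agent.MP_c42954_lc.Scan Pool.Agent.SplLog Pool.Agent.SplAll
open Pool.Agent.SplPl Pool.Agent.SplLow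

private theorem un_sub' {X : List ℕ} {T : BinaryTree ℕ} (hb : IsBST T)
    (hX : ∀ x ∈ X, x ∈ inorder T) : Un X T ⊆ (inorder T).toFinset := by
  intro v hv
  obtain ⟨x, hx, h⟩ := UCARD_mem.1 hv
  rw [List.mem_toFinset]
  rcases h with rfl | h
  · exact hX v hx
  · exact onP_mem ((mem_ancs hb (hX x hx)).1 h).1

/-- The factor. -/
def FS (M : ℕ) : ℕ := M * (Nat.log 2 M + 1) ^ 2

theorem FS_mono {a b : ℕ} (h : a ≤ b) : FS a ≤ FS b :=
  Nat.mul_le_mul h (Nat.pow_le_pow_left (Nat.add_le_add_right (Nat.log_mono_right h) 1) 2)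

theorem FS_two (M : ℕ) : FS (2 * M) ≤ 8 * FS M := by
  rcases Nat.eq_zero_or_pos M with rfl | hM
  · simp [FS]
  have h : Nat.log 2 (2 * M) = Nat.log 2 M + 1 := by
    rw [mul_comm]
    exact Nat.log_mul_base (by norm_num) hM.ne'
  unfold FS
  rw [h]
  nlinarith [Nat.zero_le (M * Nat.log 2 M), Nat.zero_le (M * Nat.log 2 M ^ 2)]

/-- The parameter of the block process after height reduction. -/
theorem Mv_le (n : ℕ) :
    Nat.log 2 (Nat.log 2 n * (4 * Nat.log 2 n + 4) + 1) + 1 ≤ 2 * ML n := by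
  set l := Nat.log 2 n with hl
  set s := Nat.size (n + 1) with hs
  have h1 : l + 1 ≤ s := by
    by_contra h
    have h2 : s ≤ l := by omega
    have h3 : n + 1 < 2 ^ s := Nat.lt_size_self (n + 1)
    have h4 : 2 ^ s ≤ 2 ^ l := Nat.pow_le_pow_right (by norm_num) h2
    rcases Nat.eq_zero_or_pos n with rfl | hn
    · rw [hl] at h4
      simp at h4
      omega
    · have h5 : 2 ^ l ≤ n := Nat.pow_log_le_self 2 hn.ne'
      omega
  have h2 : l * (4 * l + 4) + 1 < 2 ^ (2 * Nat.log 2 s + 4) := by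
    have h3 : s < 2 ^ (Nat.log 2 s + 1) := Nat.lt_pow_succ_log_self (by norm_num) s
    calc l * (4 * l + 4) + 1 ≤ 4 * s ^ 2 := by nlinarith
      _ < 4 * (2 ^ (Nat.log 2 s + 1)) ^ 2 := by
          apply Nat.mul_lt_mul_of_pos_left (Nat.pow_lt_pow_left h3 (by norm_num)) (by norm_num)
      _ = 2 ^ (2 * Nat.log 2 s + 4) := by
          rw [← pow_mul, show (4 : ℕ) = 2 ^ 2 by norm_num, ← pow_add]
          congr 1
          ring
  have h5 : Nat.log 2 (l * (4 * l + 4) + 1) < 2 * Nat.log 2 s + 4 :=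
    Nat.log_lt_of_lt_pow (by omega) h2
  unfold ML
  rw [← hs]
  omega

/-- **The sharp bound in natural numbers.** -/
theorem main_sharp : ∃ C : ℕ, ∀ (T : BinaryTree ℕ) (X : List ℕ) (c : ℕ), IsBST T →
    (∀ x ∈ X, x ∈ inorder T) → Exec T X c →
    splayCost X T ≤ C * FS (ML (inorder T).length) * c := by
  obtain ⟨C, hC⟩ := theoremA2
  refine ⟨784 * C + 2, ?_⟩
  intro T X c hb hX hex
  rcases X with _ | ⟨x0, X0⟩
  · simp [splayCost]
  set X := x0 :: X0 with hXdef
  have hx0 : x0 ∈ X := List.mem_cons_self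
  set n := (inorder T).length with hnd
  set u := (Un X T).card with hu
  have hxU : ∀ x ∈ X, x ∈ Un X T := fun x hx => UCARD_mem.2 ⟨x, hx, Or.inl rfl⟩
  have huc : u ≤ c := ucard hex hb hX
  have hXc : X.length ≤ c := length_le_exec hex
  have hc1 : 1 ≤ c := (show 1 ≤ X.length by rw [hXdef]; simp).trans hXc
  obtain ⟨T', hb', hX', hT', hlen', hcost⟩ := RED hb hX
  -- shift by one
  set f : ℕ → ℕ := fun v => v + 1 with hf
  have hmono : ∀ x ∈ inorder T', Mono f x (inorder T') := fun x _ a _ =>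
    ⟨fun h => by simp only [hf]; omega, fun h => by simp only [hf]; omega⟩
  set T'' := mapT f T' with hT''
  set X' := X.map (rk (Un X T)) with hX'def
  set X'' := X'.map f with hX''
  have hin : inorder T'' = (inorder T').map f := mapT_inorder f T'
  have hb'' : IsBST T'' := by
    unfold IsBST
    rw [hin, List.pairwise_map]
    exact List.Pairwise.imp (fun {a b} h => by simp only [hf]; omega) hb'
  have hmX : ∀ y ∈ X'', y ∈ inorder T'' := by
    intro y hy
    rw [hX'', List.mem_map] at hy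
    obtain ⟨x, hx, rfl⟩ := hy
    rw [hin]
    exact List.mem_map_of_mem (hX' x hx)
  have hcost' : splayCost X'' T'' = splayCost X T := by
    rw [hX'', hT'', RED_cost hmono X' T' hb' rfl hX', hcost]
  have hlX : X''.length = X.length := by
    rw [hX'', List.length_map, hX'def, List.length_map]
  have hB : Bd 0 (u + 1) T'' := by
    intro v hv
    rw [hin, List.mem_map] at hv
    obtain ⟨w, hw, rfl⟩ := hv
    have := hT' w hw
    simp only [hf]
    omega
  have hmX' : ∀ t, t < X''.length → (fun t => X''.getD t 0) t ∈ inorder T'' := by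
    intro t ht
    simp only
    rw [List.getD_eq_getElem _ _ ht]
    exact hmX _ (List.getElem_mem ht)
  have hc1' := run_cost (X := fun t => X''.getD t 0) (m := X''.length) hb'' hmX' hB
  have hc2 := run_kept (X := fun t => X''.getD t 0) (m := X''.length) hb'' hmX' hB
  have hh1 := run_half (X := fun t => X''.getD t 0) (m := X''.length) hb'' hmX' hB
  have hh2 := run_half_mir (X := fun t => X''.getD t 0) (m := X''.length) hb'' hmX' hB
  have hc3 := cost_eq X'' T''
  rw [hcost'] at hc3
  set S := sysOf T'' (fun t => X''.getD t 0) X''.length (u + 1) hb'' hmX' hB with hS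
  have e1 : X''.length = S.m := rfl
  have hk2 : S.mir.KR ≤ S.mir.NR + S.mir.CR + S.mir.CL + S.m := by
    rw [Sys.mir_CR, Sys.mir_CL]
    have h := hc2.2
    rw [e1] at h
    omega
  have hm : S.m = X.length := hlX
  have hSX : ∀ t, t < S.m → S.X t = rk (Un X T) (X.getD t 0) + 1 := by
    intro t ht
    show X''.getD t 0 = _
    have h4 : t < X''.length := ht
    have h5 : t < X.length := by rw [← hlX]; exact h4
    rw [List.getD_eq_getElem _ _ h4, List.getD_eq_getElem _ _ h5]
    simp only [hX'', hX'def, List.getElem_map, hf]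
  obtain ⟨B, hBH, hBt⟩ := low_blkU hb hex (un_sub' hb hX) hxU (S := S) hm rfl hSX
  have h1 := hC S B hh1 hh2 hc2.1 hk2
  rw [hBH] at h1
  have h2 : FS (Nat.log 2 (Nat.log 2 n * (4 * Nat.log 2 n + 4) + 1) + 1) ≤ 8 * FS (ML n) :=
    (FS_mono (Mv_le n)).trans (FS_two _)
  have htop : S.top = u + 1 := rfl
  have h3 : S.top + S.m + B.tot ≤ 49 * c := by
    rw [htop]
    rw [hm] at hBt ⊢
    omega
  have h4 : S.NR + S.mir.NR + S.CR + S.CL ≤ C * (8 * FS (ML n)) * (49 * c) :=
    h1.trans (Nat.mul_le_mul (Nat.mul_le_mul_left _ h2) h3)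
  have hM1 : 1 ≤ FS (ML n) := by
    unfold FS ML
    exact Nat.one_le_iff_ne_zero.2 (by positivity)
  have h6 : splayCost X T ≤ 2 * S.m + 2 * (S.NR + S.mir.NR + S.CR + S.CL) := by
    rw [hc3]
    omega
  have h5 : S.m ≤ FS (ML n) * c := by
    rw [hm]
    exact hXc.trans (Nat.le_mul_of_pos_left c hM1)
  calc splayCost X T ≤ 2 * (FS (ML n) * c) + 2 * (C * (8 * FS (ML n)) * (49 * c)) := by omega
    _ = (784 * C + 2) * FS (ML n) * c := by ring

/-- **Splay trees are `loglog n (1 + logloglog n)²`-competitive.** -/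
theorem competitive_sharp : ∃ C : ℝ, 0 < C ∧
    ∀ (T : BinaryTree ℕ) (X : List ℕ) (c : ℕ), IsBST T → (∀ x ∈ X, x ∈ inorder T) →
    3 ≤ (inorder T).length → Exec T X c →
    (splayCost X T : ℝ) ≤ C * Real.log (Real.log (inorder T).length) *
      (1 + Real.log (1 + Real.log (Real.log (inorder T).length))) ^ 2 * c := by
  obtain ⟨C, hC⟩ := main_sharp
  obtain ⟨D0, hD00, hD0⟩ := ML_le
  set D := max D0 1 with hDdef
  have hD1 : 1 ≤ D := le_max_right _ _
  have hl2 : 0 < Real.log 2 := Real.log_pos (by norm_num)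
  have hlD : 0 ≤ Real.log D := Real.log_nonneg hD1
  set E := Real.log D / Real.log 2 + 1 / Real.log 2 + 1 with hE
  have hE0 : 0 < E := by positivity
  refine ⟨(C + 1) * D * E ^ 2, by positivity, ?_⟩
  intro T X c hb hX hn hex
  have h1 := hC T X c hb hX hex
  have h2 := hD0 _ hn
  set n := (inorder T).length with hnd
  set L := Real.log (Real.log n) with hL
  have h0 : 0 ≤ L := by
    by_contra hcon
    push Not at hcon
    have : (ML n : ℝ) < 0 := lt_of_le_of_lt h2 (mul_neg_of_pos_of_neg hD00 hcon)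
    exact absurd this (not_lt.2 (Nat.cast_nonneg _))
  have h3 : (ML n : ℝ) ≤ D * L := h2.trans (mul_le_mul_of_nonneg_right (le_max_left _ _) h0)
  have hMpos : (0 : ℝ) < ML n := by
    have : 0 < ML n := by unfold ML; omega
    exact_mod_cast this
  have h4 : ((Nat.log 2 (ML n) : ℕ) : ℝ) ≤ Real.log (ML n) / Real.log 2 := by
    rw [le_div_iff₀ hl2, ← Real.log_pow]
    apply Real.log_le_log (by positivity)
    have h5 : 2 ^ Nat.log 2 (ML n) ≤ ML n := Nat.pow_log_le_self 2 (by unfold ML; omega)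
    exact_mod_cast h5
  have h5 : Real.log (ML n) ≤ Real.log D + Real.log (1 + L) := by
    rw [← Real.log_mul (by positivity) (by positivity)]
    apply Real.log_le_log hMpos
    nlinarith
  have hl : 0 ≤ Real.log (1 + L) := Real.log_nonneg (by linarith)
  have h6 : ((Nat.log 2 (ML n) : ℕ) : ℝ) + 1 ≤ E * (1 + Real.log (1 + L)) := by
    have h7 : Real.log (ML n) / Real.log 2 ≤ (Real.log D + Real.log (1 + L)) / Real.log 2 :=
      div_le_div_of_nonneg_right h5 hl2.le
    have h8 : (Real.log D + Real.log (1 + L)) / Real.log 2 + 1 ≤ E * (1 + Real.log (1 + L)) := by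
      rw [hE]
      have a1 : 0 ≤ Real.log D / Real.log 2 * Real.log (1 + L) := by positivity
      have a2 : 0 ≤ 1 / Real.log 2 := by positivity
      have a3 : (Real.log D + Real.log (1 + L)) / Real.log 2 =
        Real.log D / Real.log 2 + 1 / Real.log 2 * Real.log (1 + L) := by ring
      rw [a3]
      nlinarith
    linarith
  have h7 : ((FS (ML n) : ℕ) : ℝ) ≤ (D * L) * (E * (1 + Real.log (1 + L))) ^ 2 := by
    unfold FS
    push_cast
    apply mul_le_mul h3 _ (by positivity) (by positivity)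
    exact pow_le_pow_left₀ (by positivity) h6 2
  calc (splayCost X T : ℝ) ≤ ((C * FS (ML n) * c : ℕ) : ℝ) := by exact_mod_cast h1
    _ = C * (FS (ML n) : ℝ) * c := by push_cast; ring
    _ ≤ (C + 1) * ((D * L) * (E * (1 + Real.log (1 + L))) ^ 2) * c := by
        have : (C : ℝ) ≤ C + 1 := by linarith
        gcongr
    _ = (C + 1) * D * E ^ 2 * L * (1 + Real.log (1 + L)) ^ 2 * c := by ring

end Pool.Agent.SplPly
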